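import Mathlib
import Pool.Agent.Helper419.KS.Defs
import Pool.Agent.Helper419.KS.Semi
import Pool.Agent.Helper419.KS.Unst
import Pool.Agent.Helper419.KS.TowerFan
import Pool.Agent.Helper419.KS.Morph
import Pool.Agent.Helper419.KS.A4
import Pool.Agent.Helper419.KS.A5

/-!
Towers with additional trivial factors, and smooth morphisms of Fano varieties with K-semistable
source and K-unstable target in all dimensions.
-/

set_option autoImplicit false

namespace Pool.Agent.Y105.KSG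

open FanoFib FanoFib.Tor FanoFib.Tower FanoFib.Comb

variable {I J : Type} [Fintype I] [DecidableEq I] [Fintype J] [DecidableEq J]

/-- The twists with `k` additional trivial twists. -/
def ext (k : ℕ) (ℓ : J → I → ℤ) : J → I ⊕ Fin k → ℤ := fun j => Sum.elim (ℓ j) (fun _ => 0)

/-- restriction to the old coordinates -/
def res (k : ℕ) (u : (I ⊕ Fin k) ⊕ J × Fin 2 → ℤ) : I ⊕ J × Fin 2 → ℤ :=
  Sum.elim (fun i => u (.inl (.inl i))) (fun p => u (.inr p))

/-- the new coordinates -/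
def bx (k : ℕ) (u : (I ⊕ Fin k) ⊕ J × Fin 2 → ℤ) : Fin k → ℤ := fun a => u (.inl (.inr a))

/-- the inverse of `(res, bx)` -/
def glue (k : ℕ) (u : I ⊕ J × Fin 2 → ℤ) (b : Fin k → ℤ) : (I ⊕ Fin k) ⊕ J × Fin 2 → ℤ :=
  Sum.elim (Sum.elim (fun i => u (.inl i)) b) (fun p => u (.inr p))

omit [Fintype I] [DecidableEq I] [Fintype J] [DecidableEq J] in
theorem res_glue (k : ℕ) (u : I ⊕ J × Fin 2 → ℤ) (b : Fin k → ℤ) : res k (glue k u b) = u := by
  funext x
  rcases x with i | p <;> rfl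

omit [Fintype I] [DecidableEq I] [Fintype J] [DecidableEq J] in
theorem bx_glue (k : ℕ) (u : I ⊕ J × Fin 2 → ℤ) (b : Fin k → ℤ) : bx k (glue k u b) = b := by
  funext x
  rfl

omit [Fintype I] [DecidableEq I] [Fintype J] [DecidableEq J] in
theorem glue_res (k : ℕ) (u : (I ⊕ Fin k) ⊕ J × Fin 2 → ℤ) : glue k (res k u) (bx k u) = u := by
  funext x
  rcases x with (i | a) | p <;> rfl

omit [DecidableEq I] [Fintype J] [DecidableEq J] in
theorem inP_ext (k : ℕ) (ℓ : J → I → ℤ) (m : ℤ) (u : (I ⊕ Fin k) ⊕ J × Fin 2 → ℤ) :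
    InP (ext k ℓ) m u ↔ InP ℓ m (res k u) ∧ ∀ a, -m ≤ bx k u a ∧ bx k u a ≤ m := by
  have h : ∀ j, ∑ i, ext k ℓ j i * u (.inl i) = ∑ i, ℓ j i * u (.inl (.inl i)) := by
    intro j
    rw [Fintype.sum_sum_type]
    simp [ext]
  unfold InP
  constructor
  · rintro ⟨h1, h2⟩
    refine ⟨⟨fun i => h1 (.inl i), fun j => ?_⟩, fun a => h1 (.inr a)⟩
    have h3 := h2 j
    rw [h j] at h3
    exact h3
  · rintro ⟨⟨h1, h2⟩, h3⟩
    refine ⟨?_, fun j => ?_⟩
    · rintro (i | a)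
      · exact h1 i
      · exact h3 a
    · rw [h j]
      exact h2 j

/-- the box -/
noncomputable def box (k : ℕ) (m : ℕ) : Finset (Fin k → ℤ) :=
  Fintype.piFinset fun _ => Finset.Icc (-(m : ℤ)) m

theorem mem_box (k m : ℕ) (b : Fin k → ℤ) : b ∈ box k m ↔ ∀ a, -(m : ℤ) ≤ b a ∧ b a ≤ m := by
  unfold box
  rw [Fintype.mem_piFinset]
  simp only [Finset.mem_Icc]

theorem card_box (k m : ℕ) : (box k m).card = (2 * m + 1) ^ k := by
  unfold box
  rw [Fintype.card_piFinset, Finset.prod_const, Finset.card_univ, Fintype.card_fin, Int.card_Icc]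
  congr 1
  omega

theorem sum_box (k m : ℕ) (a : Fin k) : ∑ b ∈ box k m, b a = 0 := by
  have h : ∑ b ∈ box k m, b a = ∑ b ∈ box k m, -b a := by
    refine Finset.sum_nbij' (i := fun b => -b) (j := fun b => -b) ?_ ?_ ?_ ?_ ?_
    · intro b hb
      rw [mem_box] at hb ⊢
      intro a
      have := hb a
      simp only [Pi.neg_apply]
      omega
    · intro b hb
      rw [mem_box] at hb ⊢
      intro a
      have := hb a
      simp only [Pi.neg_apply]
      omega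
    · intro b _
      exact neg_neg b
    · intro b _
      exact neg_neg b
    · intro b _
      simp
  rw [Finset.sum_neg_distrib] at h
  omega

omit [DecidableEq I] [Fintype J] [DecidableEq J] in
theorem sum_split {M : Type} [AddCommMonoid M] (k : ℕ) (ℓ : J → I → ℤ) (m : ℕ)
    (U' : Finset ((I ⊕ Fin k) ⊕ J × Fin 2 → ℤ)) (hU' : ∀ u, u ∈ U' ↔ InP (ext k ℓ) m u)
    (U : Finset (I ⊕ J × Fin 2 → ℤ)) (hU : ∀ u, u ∈ U ↔ InP ℓ m u)
    (F : (I ⊕ J × Fin 2 → ℤ) → (Fin k → ℤ) → M) :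
    ∑ u ∈ U', F (res k u) (bx k u) = ∑ u ∈ U, ∑ b ∈ box k m, F u b := by
  rw [← Finset.sum_product']
  refine Finset.sum_nbij' (i := fun u => (res k u, bx k u)) (j := fun p => glue k p.1 p.2)
    ?_ ?_ ?_ ?_ ?_
  · intro u hu
    rw [hU', inP_ext] at hu
    rw [Finset.mem_product]
    exact ⟨(hU _).2 hu.1, (mem_box k m _).2 hu.2⟩
  · intro p hp
    rw [Finset.mem_product] at hp
    rw [hU', inP_ext, res_glue, bx_glue]
    exact ⟨(hU _).1 hp.1, (mem_box k m _).1 hp.2⟩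
  · intro u _
    exact glue_res k u
  · intro p _
    show (res k (glue k p.1 p.2), bx k (glue k p.1 p.2)) = p
    rw [res_glue, bx_glue]
  · intro u _
    rfl

omit [DecidableEq I] [Fintype J] [DecidableEq J] in
theorem sum_zero (k : ℕ) (ℓ : J → I → ℤ) (m : ℕ)
    (U' : Finset ((I ⊕ Fin k) ⊕ J × Fin 2 → ℤ)) (hU' : ∀ u, u ∈ U' ↔ InP (ext k ℓ) m u)
    (U : Finset (I ⊕ J × Fin 2 → ℤ)) (hU : ∀ u, u ∈ U ↔ InP ℓ m u) (h0 : ∑ u ∈ U, u = 0) :
    ∑ u ∈ U', u = 0 := by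
  have h1 : ∀ x, ∑ u ∈ U, u x = 0 := by
    intro x
    have := congrFun h0 x
    rwa [Finset.sum_apply] at this
  have h2 : ∀ x, ∑ u ∈ U', res k u x = 0 := by
    intro x
    rw [sum_split k ℓ m U' hU' U hU (fun u _ => u x)]
    simp only [Finset.sum_const]
    rw [← Finset.smul_sum, h1, smul_zero]
  funext x
  rw [Finset.sum_apply]
  rcases x with (i | a) | p
  · exact h2 (.inl i)
  · have h3 := sum_split k ℓ m U' hU' U hU (fun _ b => b a)
    simp only [sum_box, Finset.sum_const_zero] at h3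
    exact h3
  · exact h2 (.inr p)

theorem pt_sum (k : ℕ) (ℓ : J → I → ℤ) (h0 : ∀ m : ℕ, ∑ u ∈ pt ℓ m, u = 0) (m : ℕ) :
    ∑ u ∈ pt (ext k ℓ) m, u = 0 :=
  sum_zero k ℓ m _ (fun u => mem_pt _ m u) _ (fun u => mem_pt ℓ m u) (h0 m)

theorem semi (k : ℕ) (ℓ : J → I → ℤ) (h0 : ∀ m : ℕ, ∑ u ∈ pt ℓ m, u = 0) :
    (towerFan (ext k ℓ)).variety.KSemistable :=
  Fan.semistable (fun m u hu i => base_le (ext k ℓ) m u hu i) (ray (ext k ℓ)) (ray_bdd (ext k ℓ))
    (pt (ext k ℓ)) (fun m u => by rw [mem_pt, ray_iff]) (fun m u => mem_pt' (ext k ℓ) m u)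
    (pt_sum k ℓ h0)

theorem fano (k : ℕ) (ℓ : J → I → ℤ) (h : ∀ j, ∑ i, |ℓ j i| ≤ 2) :
    (towerFan (ext k ℓ)).variety.IsFano := by
  refine isFano (ext k ℓ) fun j => ?_
  rw [Fintype.sum_sum_type]
  simpa [ext] using h j

theorem unstable (k : ℕ) (ℓ : J → I → ℤ) (i0 : I) (n : ℕ)
    (hn : n = Fintype.card (I ⊕ J × Fin 2)) (C : ℝ)
    (hC : ∀ m : ℕ, 1 ≤ m → ((pt ℓ m).card : ℝ) ≤ C * (m : ℝ) ^ n) (c : ℝ) (hc : 0 < c)
    (hsum : ∀ m : ℕ, 1 ≤ m → c * (m : ℝ) ^ (n + 1) ≤ ∑ u ∈ pt ℓ m, (u (.inl i0) : ℝ)) :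
    ¬ (towerFan (ext k ℓ)).variety.KSemistable := by
  refine Fan.not_semistable (.inl (.inl i0)) (n + k) ?_ (pt (ext k ℓ))
    (fun m u => mem_pt' (ext k ℓ) m u)
    (fun m u hu => ((mem_pt (ext k ℓ) m u).1 hu).1 (.inl i0) |>.2) (C * 3 ^ k) ?_ c hc ?_
  · rw [hn]
    simp only [Fintype.card_sum, Fintype.card_prod, Fintype.card_fin]
    omega
  · intro m hm
    have hm1 : (1 : ℝ) ≤ m := by exact_mod_cast hm
    have h1 := sum_split k ℓ m (pt (ext k ℓ) m) (fun u => mem_pt _ m u) (pt ℓ m)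
      (fun u => mem_pt ℓ m u) (fun _ _ => (1 : ℝ))
    simp only [Finset.sum_const, nsmul_eq_mul, mul_one, card_box] at h1
    rw [h1]
    push_cast
    have h2 : (2 * (m : ℝ) + 1) ^ k ≤ (3 * (m : ℝ)) ^ k := by
      gcongr
      linarith
    calc ((pt ℓ m).card : ℝ) * (2 * (m : ℝ) + 1) ^ k
        ≤ (C * (m : ℝ) ^ n) * (3 * (m : ℝ)) ^ k :=
          mul_le_mul (hC m hm) h2 (by positivity) ((Nat.cast_nonneg _).trans (hC m hm))
      _ = C * 3 ^ k * (m : ℝ) ^ (n + k) := by rw [mul_pow, pow_add]; ring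
  · intro m hm
    have hm0 : (0 : ℝ) ≤ m := Nat.cast_nonneg m
    have h1 := sum_split k ℓ m (pt (ext k ℓ) m) (fun u => mem_pt _ m u) (pt ℓ m)
      (fun u => mem_pt ℓ m u) (fun u _ => (u (.inl i0) : ℝ))
    simp only [Finset.sum_const, nsmul_eq_mul, card_box] at h1
    rw [← Finset.mul_sum] at h1
    push_cast at h1
    have h2 : (m : ℝ) ^ k ≤ (2 * (m : ℝ) + 1) ^ k := by
      gcongr
      linarith
    have h3 := hsum m hm
    have h4 : 0 ≤ c * (m : ℝ) ^ (n + 1) := by positivity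
    have h5 : ∑ u ∈ pt (ext k ℓ) m, (u (.inl (.inl i0)) : ℝ) =
        (2 * (m : ℝ) + 1) ^ k * ∑ u ∈ pt ℓ m, (u (.inl i0) : ℝ) := h1
    rw [h5]
    calc c * (m : ℝ) ^ (n + k + 1) = (m : ℝ) ^ k * (c * (m : ℝ) ^ (n + 1)) := by
          rw [show n + k + 1 = k + (n + 1) by omega, pow_add]; ring
      _ ≤ (2 * (m : ℝ) + 1) ^ k * ∑ u ∈ pt ℓ m, (u (.inl i0) : ℝ) :=
          mul_le_mul h2 h3 h4 (by positivity)

theorem ell_le (j : Fin 3) : ∑ i, |ellX j i| ≤ 2 := by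
  rw [Fin.sum_univ_three]
  fin_cases j <;> decide

theorem ellY_le (j : Fin 3) : ∑ i, |ellY j i| ≤ 2 := by
  rw [Fin.sum_univ_two]
  fin_cases j <;> decide

theorem Y_unstable (l : ℕ) : ¬ (towerFan (ext l ellY)).variety.KSemistable := by
  obtain ⟨c, hc, hsum⟩ := sumY (pt ellY) fun m u => mem_pt ellY m u
  obtain ⟨C, hC⟩ := cardY (pt ellY) fun m u => mem_pt ellY m u
  exact unstable l ellY 1 8 (by simp [Fintype.card_sum, Fintype.card_prod]) C hC c hc hsum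

theorem X_semistable (k : ℕ) : (towerFan (ext k ellX)).variety.KSemistable :=
  semi k ellX fun m => sumX m (pt ellX m) fun u => mem_pt ellX m u

/-- the coordinates of `Y` among those of `X` -/
def emb {k l : ℕ} (h : l ≤ k) : Fin 2 ⊕ Fin l → Fin 3 ⊕ Fin k :=
  Sum.map Fin.castSucc (Fin.castLE h)

theorem emb_inj {k l : ℕ} (h : l ≤ k) : Function.Injective (emb h) :=
  Sum.map_injective.2 ⟨Fin.castSucc_injective 2, Fin.castLE_injective h⟩

theorem ext_emb {k l : ℕ} (h : l ≤ k) : (fun j i => ext k ellX j (emb h i)) = ext l ellY := by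
  funext j i
  rcases i with i | a <;> rfl

/-- The general theorem. -/
theorem main (n m : ℕ) (hm : 8 ≤ m) (hn : m < n) : ∃ X Y : SmoothProperVariety,
    X.dim = n ∧ Y.dim = m ∧ X.IsFano ∧ Y.IsFano ∧ Nonempty (SmoothMorphism X Y) ∧
    X.KSemistable ∧ ¬ Y.KSemistable := by
  obtain ⟨l, rfl⟩ : ∃ l, m = 8 + l := ⟨m - 8, by omega⟩
  obtain ⟨k, rfl⟩ : ∃ k, n = 9 + k := ⟨n - 9, by omega⟩
  have hlk : l ≤ k := by omega
  refine ⟨(towerFan (ext k ellX)).variety, (towerFan (ext l ellY)).variety, ?_, ?_,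
    fano k ellX ell_le, fano l ellY ellY_le, ?_, X_semistable k, Y_unstable l⟩
  · simp [SmoothProperVariety.dim, Fan.variety, Fintype.card_sum, Fintype.card_prod]
    omega
  · simp [SmoothProperVariety.dim, Fan.variety, Fintype.card_sum, Fintype.card_prod]
    omega
  · rw [← ext_emb hlk]
    exact ⟨towerMor (emb_inj hlk) (ext k ellX)⟩

end Pool.Agent.Y105.KSG
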